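import Pool.Agent.W812.RB.Stm

/-!
Potentials of the new sets of the recursion.
-/

set_option autoImplicit false
set_option linter.unusedSectionVars false
set_option linter.unusedVariables false

namespace Pool.Agent.W154.RB

open Finset
open Pool.Agent.W812.RB

lemma div_add_div_le (a b q : ℕ) : a / q + b / q ≤ (a + b) / q := by
  rcases Nat.eq_zero_or_pos q with h | h
  · subst h; simp
  · rw [Nat.le_div_iff_mul_le h, add_mul]
    exact Nat.add_le_add (Nat.div_mul_le_self a q) (Nat.div_mul_le_self b q)

/-- positions in different cells -/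
lemma gap_lt {q r L s₁ s₂ : ℕ} (hr : r + L ≤ q) (h1 : s₁ % q < r) (h : s₁ / q < s₂ / q) :
    s₁ + L ≤ s₂ := by
  have e1 := Nat.div_add_mod s₁ q
  have e2 := Nat.div_add_mod s₂ q
  have h3 : q * (s₁ / q + 1) ≤ q * (s₂ / q) := Nat.mul_le_mul_left _ h
  have h4 : q * (s₁ / q + 1) = q * (s₁ / q) + q := by ring
  omega

lemma gap_ne {q r L s₁ s₂ : ℕ} (hr : r + L ≤ q) (h1 : s₁ % q < r) (h2 : s₂ % q < r)
    (h : s₁ / q ≠ s₂ / q) : s₁ + L ≤ s₂ ∨ s₂ + L ≤ s₁ := by
  rcases Nat.lt_or_gt_of_ne h with h | h
  · exact Or.inl (gap_lt hr h1 h)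
  · exact Or.inr (gap_lt hr h2 h)

/-- a position is far from the end of its region -/
lemma gap_end {q r L s A : ℕ} (hr : r + L ≤ q) (h1 : s % q < r) (h : s < A * q) :
    s + L ≤ A * q := by
  have hq : 0 < q := by omega
  have e1 := Nat.div_add_mod s q
  have h2 : s / q < A := by rwa [Nat.div_lt_iff_lt_mul hq]
  have h3 : q * (s / q + 1) ≤ q * A := Nat.mul_le_mul_left _ h2
  have h4 : q * (s / q + 1) = q * (s / q) + q := by ring
  have h5 : q * A = A * q := mul_comm _ _
  omega

section
variable {G : Type} [AddCommGroup G] [Fintype G] [DecidableEq G] {p : ℕ} [NeZero p]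

lemma mem_half {S : Finset G} {x : G} : x ∈ half S ↔ x + x ∈ S := by
  simp [half]

lemma mem_dbl {S : Finset G} {x : G} : x ∈ dbl S ↔ ∃ y ∈ S, y + y = x := by
  simp [dbl]

theorem pot_nK (hg : GlueStm) (hh : HalfStm) (π : Par) (B A : ℕ) (F : Fam G B) (h2 : TwoInj G)
    (hp : p = 2 * π.P + 1) (hA : 4 * B + 2 ≤ A * π.L ^ 2) (i : ℕ) :
    Pot (nK (p := p) π F i) (A * p ^ 2 + B) := by
  have hP := π.hP
  have hr := π.hr
  have hL := π.hL
  have hH := π.hH
  have hq : 1 ≤ π.q := by omega
  have hA1 : 1 ≤ A := by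
    rcases Nat.eq_zero_or_pos A with h | h
    · subst h; omega
    · exact h
  have hHq : π.H * π.q ≤ π.P + 1 := by omega
  have hHq2 : π.q ≤ π.H * π.q := Nat.le_mul_of_pos_left _ (by omega)
  unfold nK
  refine hg G p (ℕ × ℕ) (sK π F i) 0
    (fun u => if u < π.H * π.q then (0, u / π.q) else (1, (u - (π.P + 1)) / π.q))
    (fun a => if a.1 = 0 then F.K (π.t a.2) else half (F.Z (π.nu (2 * a.2 + 1))))
    π.L B A h2 ?_ ?_ ?_ hA1 (by omega) hA ?_
  · intro u _
    unfold sK
    by_cases h : u < π.H * π.q
    · simp only [h, if_true]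
      split_ifs
      · exact subset_rfl
      · exact empty_subset _
    · simp only [h, if_false]
      rw [if_neg (by decide : ¬ (1:ℕ) = 0)]
      split_ifs
      · exact empty_subset _
      · exact subset_rfl
      · exact empty_subset _
  · intro a
    by_cases h : a.1 = 0
    · simp only [h, if_true]
      exact F.hK _
    · simp only [h, if_false]
      exact ((hh G (F.Z (π.nu (2 * a.2 + 1))) B h2).2.2 (F.hZ _)).1
  · have key : ∀ u, (sK π F i u).Nonempty → (u < π.H * π.q ∧ u % π.q < π.r) ∨
        (π.P + 1 ≤ u ∧ (u - (π.P + 1)) % π.q < π.r) := by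
      intro u hu
      unfold sK at hu
      split_ifs at hu with a1 a2 a3 a4
      · exact Or.inl ⟨a1, a2.1⟩
      · exact absurd hu (by simp)
      · exact absurd hu (by simp)
      · exact Or.inr ⟨by omega, a4.1⟩
      · exact absurd hu (by simp)
    intro u1 u2 hu1 hu2 hn1 hn2 hl
    rcases key u1 hn1 with ⟨b1, b2⟩ | ⟨b1, b2⟩ <;> rcases key u2 hn2 with ⟨c1, c2⟩ | ⟨c1, c2⟩
    · simp only [b1, c1, if_true] at hl
      exact gap_ne hr b2 c2 (fun h => hl (by rw [h]))
    · left
      have := gap_end hr b2 b1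
      omega
    · right
      have := gap_end hr c2 c1
      omega
    · rw [if_neg (show ¬ u1 < π.H * π.q by omega), if_neg (show ¬ u2 < π.H * π.q by omega)] at hl
      have := gap_ne hr b2 c2 (fun h => hl (by rw [h]))
      omega
  · intro u1 u2 u3 h1 h2' h3 hu x hx z hz y hy hxz
    have hu3 : π.P + 1 ≤ u3 := by omega
    unfold sK at hy
    rw [if_neg (by omega), if_neg (by omega)] at hy
    split_ifs at hy with hc
    swap
    · simp at hy
    obtain ⟨-, hb, -⟩ := hc
    set s := u3 - (π.P + 1) with hs
    set b := s / π.q with hbdef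
    have hs1 : s < (b + 1) * π.q := by
      rw [hbdef]
      exact Nat.lt_mul_of_div_lt (Nat.lt_succ_self _) hq
    have hsum : u1 + u2 = 2 * s + 1 := by omega
    have h2b : (2 * b + 2) * π.q ≤ π.H * π.q := Nat.mul_le_mul_right _ (by omega)
    have h2b' : (2 * b + 2) * π.q = 2 * ((b + 1) * π.q) := by ring
    unfold sK at hx hz
    rw [if_pos (by omega)] at hx hz
    split_ifs at hx hz <;> try (simp at hx)
    · have hd : u1 / π.q + u2 / π.q ≤ 2 * b + 1 := by
        have h5 := div_add_div_le u1 u2 π.q
        have h6 : (u1 + u2) / π.q < 2 * b + 2 := by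
          rw [Nat.div_lt_iff_lt_mul hq]
          omega
        omega
      have ht := π.hnu (2 * b + 1) (by omega) _ _ hd
      apply F.h _ _ _ ht _ hx _ hz
      rw [hxz]
      exact mem_half.1 hy
    · simp at hz

theorem pot_nZ (hg : GlueStm) (hh : HalfStm) (π : Par) (B A : ℕ) (F : Fam G B) (h2 : TwoInj G)
    (hp : p = 2 * π.P + 1) (hA : 4 * B + 2 ≤ A * π.L ^ 2) (j : ℕ) :
    Pot (nZ (p := p) π F j) (A * p ^ 2 + B) := by
  have hP := π.hP
  have hr := π.hr
  have hL := π.hL
  have hH := π.hH
  have hq : 1 ≤ π.q := by omega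
  have hA1 : 1 ≤ A := by
    rcases Nat.eq_zero_or_pos A with h | h
    · subst h; omega
    · exact h
  have hHq : π.H * π.q ≤ π.P + 1 := by omega
  have hHq2 : π.q ≤ π.H * π.q := Nat.le_mul_of_pos_left _ (by omega)
  unfold nZ
  split_ifs with hj
  · set m := j - π.H with hm
    have hmH : m ≤ π.H := by omega
    have hAq : (π.H - m) * π.q ≤ π.H * π.q := Nat.mul_le_mul_right _ (Nat.sub_le _ _)
    have hAm : (π.H - m) * π.q + m * π.q = π.H * π.q := by
      rw [← add_mul]; congr 1; omega
    refine hg G p (ℕ × ℕ) (sZ π F m) _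
      (fun u => if u < (π.H - m) * π.q then (0, u / π.q) else
        if u < π.P + 1 then (1, (u - ((π.H - m) * π.q + π.e)) / π.q) else
        (2, (u - (π.P + 1)) / π.q))
      (fun a => if a.1 = 0 then dbl (F.K (π.t (a.2 + m / 2))) else
        if a.1 = 1 then F.Z (π.nu a.2) else F.Z (π.nu (2 * a.2 + 1 + 2 * (m / 2))))
      π.L B A h2 ?_ ?_ ?_ hA1 (by omega) hA ?_
    · intro u _
      unfold sZ
      by_cases h : u < (π.H - m) * π.q
      · simp only [h, if_true]
        split_ifs
        · exact subset_rfl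
        · exact empty_subset _
      · simp only [h, if_false]
        by_cases h' : u < π.P + 1
        · simp only [h', if_true]
          rw [if_neg (by decide : ¬ (1:ℕ) = 0)]
          split_ifs
          · exact subset_rfl
          · exact empty_subset _
        · simp only [h', if_false]
          rw [if_neg (by decide : ¬ (2:ℕ) = 0), if_neg (by decide : ¬ (2:ℕ) = 1)]
          split_ifs
          · exact subset_rfl
          · exact empty_subset _
    · intro a
      by_cases h : a.1 = 0
      · simp only [h, if_true]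
        exact ((hh G (F.K (π.t (a.2 + m / 2))) B h2).2.2 (F.hK _)).2
      · simp only [h, if_false]
        split_ifs
        · exact F.hZ _
        · exact F.hZ _
    · have key : ∀ u, (sZ π F m u).Nonempty → (u < (π.H - m) * π.q ∧ u % π.q < π.r) ∨
          ((π.H - m) * π.q + π.e ≤ u ∧ u < π.P + 1 ∧
            (u - ((π.H - m) * π.q + π.e)) % π.q < π.r) ∨
          (π.P + 1 ≤ u ∧ (u - (π.P + 1)) % π.q < π.r) := by
        intro u hu
        unfold sZ at hu
        split_ifs at hu with a1 a2 a3 a4 a5
        · exact Or.inl ⟨a1, a2⟩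
        · exact absurd hu (by simp)
        · exact Or.inr (Or.inl ⟨a4.1, a3, a4.2⟩)
        · exact absurd hu (by simp)
        · exact Or.inr (Or.inr ⟨by omega, a5.1⟩)
        · exact absurd hu (by simp)
      intro u1 u2 hu1 hu2 hn1 hn2 hl
      rcases key u1 hn1 with ⟨b1, b2⟩ | ⟨b0, b1, b2⟩ | ⟨b1, b2⟩ <;>
        rcases key u2 hn2 with ⟨c1, c2⟩ | ⟨c0, c1, c2⟩ | ⟨c1, c2⟩
      · simp only [b1, c1, if_true] at hl
        exact gap_ne hr b2 c2 (fun h => hl (by rw [h]))
      · left
        have := gap_end hr b2 b1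
        omega
      · left
        have := gap_end hr b2 b1
        omega
      · right
        have := gap_end hr c2 c1
        omega
      · rw [if_neg (show ¬ u1 < (π.H - m) * π.q by omega), if_pos b1,
          if_neg (show ¬ u2 < (π.H - m) * π.q by omega), if_pos c1] at hl
        have := gap_ne hr b2 c2 (fun h => hl (by rw [h]))
        omega
      · left
        have := gap_end (A := m) hr b2 (by omega)
        omega
      · right
        have := gap_end hr c2 c1
        omega
      · right
        have := gap_end (A := m) hr c2 (by omega)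
        omega
      · rw [if_neg (show ¬ u1 < (π.H - m) * π.q by omega), if_neg (show ¬ u1 < π.P + 1 by omega),
          if_neg (show ¬ u2 < (π.H - m) * π.q by omega),
          if_neg (show ¬ u2 < π.P + 1 by omega)] at hl
        have := gap_ne hr b2 c2 (fun h => hl (by rw [h]))
        omega
    · intro u1 u2 u3 h1 h2' h3 hu x hx z hz y hy hxz
      have hu3 : π.P + 1 ≤ u3 := by omega
      unfold sZ at hy
      rw [if_neg (by omega), if_neg (by omega)] at hy
      split_ifs at hy with hb
      swap
      · simp at hy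
      obtain ⟨-, hb⟩ := hb
      set s := u3 - (π.P + 1) with hs
      set b := s / π.q with hbdef
      have hs1 : s < (b + 1) * π.q := by
        rw [hbdef]
        exact Nat.lt_mul_of_div_lt (Nat.lt_succ_self _) hq
      have hsum : u1 + u2 = 2 * s + 1 := by omega
      have h2b : (2 * b + 2) * π.q ≤ (π.H - m) * π.q := Nat.mul_le_mul_right _ (by omega)
      have h2b' : (2 * b + 2) * π.q = 2 * ((b + 1) * π.q) := by ring
      unfold sZ at hx hz
      rw [if_pos (by omega)] at hx hz
      split_ifs at hx hz <;> try (simp at hx)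
      swap
      · simp at hz
      obtain ⟨x0, hx0, rfl⟩ := mem_dbl.1 hx
      obtain ⟨z0, hz0, rfl⟩ := mem_dbl.1 hz
      have hd : u1 / π.q + u2 / π.q ≤ 2 * b + 1 := by
        have h5 := div_add_div_le u1 u2 π.q
        have h6 : (u1 + u2) / π.q < 2 * b + 2 := by
          rw [Nat.div_lt_iff_lt_mul hq]
          omega
        omega
      have ht := π.hnu (2 * b + 1 + 2 * (m / 2)) (by omega) (u1 / π.q + m / 2)
        (u2 / π.q + m / 2) (by omega)
      apply F.h _ _ _ ht _ hx0 _ hz0
      have : x0 + z0 = y := by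
        apply h2
        rw [← hxz]; abel
      rw [this]; exact hy
  · refine hg G p ℕ (sY π F (j - 2 * π.H)) 0 (fun u => u / π.q) (fun a => F.Z (π.nu a))
      π.L B A h2 ?_ ?_ ?_ hA1 (by omega) hA ?_
    · intro u _
      unfold sY
      split_ifs
      · exact subset_rfl
      · exact empty_subset _
    · intro a
      exact F.hZ _
    · have key : ∀ u, (sY π F (j - 2 * π.H) u).Nonempty → u % π.q < π.r := by
        intro u hu
        unfold sY at hu
        split_ifs at hu with a1
        · exact a1.2.1
        · exact absurd hu (by simp)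
      intro u1 u2 hu1 hu2 hn1 hn2 hl
      exact gap_ne hr (key _ hn1) (key _ hn2) hl
    · intro u1 u2 u3 h1 h2' h3 hu x hx z hz y hy hxz
      unfold sY at hy
      rw [if_neg (by rintro ⟨h, -⟩; omega)] at hy
      simp at hy

end

theorem stepPot (hg : GlueStm) (hh : HalfStm) : StepPotStm := by
  intro G _ _ _ p _ π B A F h2 hp hA
  exact ⟨fun i => pot_nK hg hh π B A F h2 hp hA i, fun j => pot_nZ hg hh π B A F h2 hp hA j⟩

end Pool.Agent.W154.RB
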